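import Pool.Agent.V11294.TG.Fin

/-!
# MP_f98a08_co: the two-sided gamma coefficients dominate the gamma coefficients of separable
permutations
-/

set_option autoImplicit false

open Finset

namespace Pool.Agent.Results.MP_f98a08_co.GammaInequality

/-- The number of descents of a permutation of `n` elements, written in one-line notation:
the number of `i` (among the first `n - 1` places) with `σ (i + 1) < σ i`.
(With the convention `π_{n+1} = +∞` the last place is never a descent.) -/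
def des {n : ℕ} (σ : Equiv.Perm (Fin n)) : ℕ :=
  ((univ : Finset (Fin n)).filter
    (fun i : Fin n => ∃ h : (i : ℕ) + 1 < n, σ ⟨(i : ℕ) + 1, h⟩ < σ i)).card

/-- `σ` avoids the patterns `2413` and `3142`. -/
def Separable {n : ℕ} (σ : Equiv.Perm (Fin n)) : Prop :=
  (¬ ∃ a b c d : Fin n, a < b ∧ b < c ∧ c < d ∧ σ c < σ a ∧ σ a < σ d ∧ σ d < σ b) ∧
  (¬ ∃ a b c d : Fin n, a < b ∧ b < c ∧ c < d ∧ σ b < σ d ∧ σ d < σ a ∧ σ a < σ c)

/-- `γ i j` (`2 i + j ≤ n - 1`) are the coefficients of the two-sided Eulerian polynomial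
`∑_σ s^{ides σ} t^{des σ} = ∑ γ_{i,j} (st)^i (1+st)^j (s+t)^{n-1-j-2i}` in `ℚ[s,t]`. -/
def IsGamma (n : ℕ) (γ : ℕ → ℕ → ℚ) : Prop :=
  ∑ σ : Equiv.Perm (Fin n),
    (MvPolynomial.X 0 : MvPolynomial (Fin 2) ℚ) ^ des σ⁻¹ * MvPolynomial.X 1 ^ des σ =
  ∑ p ∈ (range n ×ˢ range n).filter (fun p => 2 * p.1 + p.2 ≤ n - 1),
    MvPolynomial.C (γ p.1 p.2) * ((MvPolynomial.X 0 * MvPolynomial.X 1) ^ p.1 *
      (1 + MvPolynomial.X 0 * MvPolynomial.X 1) ^ p.2 *
      (MvPolynomial.X 0 + MvPolynomial.X 1) ^ (n - 1 - p.2 - 2 * p.1))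

open Classical in
/-- `γS k` (`k ≤ (n - 1) / 2`) are the gamma coefficients of the descent polynomial of the
separable permutations. -/
def IsGammaS (n : ℕ) (γS : ℕ → ℚ) : Prop :=
  ∑ σ ∈ (univ : Finset (Equiv.Perm (Fin n))).filter (fun σ => Separable σ),
    (Polynomial.X : Polynomial ℚ) ^ des σ =
  ∑ k ∈ range ((n - 1) / 2 + 1),
    Polynomial.C (γS k) * (Polynomial.X ^ k * (1 + Polynomial.X) ^ (n - 1 - 2 * k))

theorem isGamma_iff (n : ℕ) (γ : ℕ → ℕ → ℚ) : IsGamma n γ ↔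
    ∑ σ : Equiv.Perm (Fin n), (MvPolynomial.X 0 : MvPolynomial (Fin 2) ℚ) ^ V11294.TG.des σ⁻¹ *
      MvPolynomial.X 1 ^ V11294.TG.des σ =
    V11294.TG.gexp n γ (MvPolynomial.X 0) (MvPolynomial.X 1) := by
  unfold IsGamma V11294.TG.gexp V11294.TG.Idx
  simp only [MvPolynomial.smul_eq_C_mul]
  rfl

theorem gexp_map {R S : Type*} [CommRing R] [CommRing S] [Algebra ℚ R] [Algebra ℚ S]
    (φ : R →ₐ[ℚ] S) (n : ℕ) (g : ℕ → ℕ → ℚ) (s t : R) :
    φ (V11294.TG.gexp n g s t) = V11294.TG.gexp n g (φ s) (φ t) := by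
  unfold V11294.TG.gexp
  rw [map_sum]
  apply Finset.sum_congr rfl
  intro p _
  rw [map_smul, map_mul, map_mul, map_pow, map_pow, map_pow, map_mul, map_add, map_add, map_mul,
    map_one]

theorem separable_iff {n : ℕ} (σ : Equiv.Perm (Fin n)) :
    Separable σ ↔ V11294.TG.Sepf (V11294.TG.vf σ) n := by
  constructor
  · rintro ⟨h1, h2⟩ a b c d hab hbc hcd hdn
    have ea := V11294.TG.vf_val σ ⟨a, by omega⟩
    have eb := V11294.TG.vf_val σ ⟨b, by omega⟩
    have ec := V11294.TG.vf_val σ ⟨c, by omega⟩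
    have ed := V11294.TG.vf_val σ ⟨d, by omega⟩
    simp only at ea eb ec ed
    rw [ea, eb, ec, ed]
    constructor
    · rintro ⟨k1, k2, k3⟩
      apply h1
      refine ⟨⟨a, by omega⟩, ⟨b, by omega⟩, ⟨c, by omega⟩, ⟨d, by omega⟩, ?_, ?_, ?_, ?_, ?_, ?_⟩
      · exact hab
      · exact hbc
      · exact hcd
      · rw [Fin.lt_def]; exact_mod_cast k1
      · rw [Fin.lt_def]; exact_mod_cast k2
      · rw [Fin.lt_def]; exact_mod_cast k3
    · rintro ⟨k1, k2, k3⟩
      apply h2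
      refine ⟨⟨a, by omega⟩, ⟨b, by omega⟩, ⟨c, by omega⟩, ⟨d, by omega⟩, ?_, ?_, ?_, ?_, ?_, ?_⟩
      · exact hab
      · exact hbc
      · exact hcd
      · rw [Fin.lt_def]; exact_mod_cast k1
      · rw [Fin.lt_def]; exact_mod_cast k2
      · rw [Fin.lt_def]; exact_mod_cast k3
  · intro h
    constructor
    · rintro ⟨a, b, c, d, hab, hbc, hcd, k1, k2, k3⟩
      have := (h a b c d hab hbc hcd d.2).1
      rw [V11294.TG.vf_val, V11294.TG.vf_val, V11294.TG.vf_val, V11294.TG.vf_val] at this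
      apply this
      rw [Fin.lt_def] at k1 k2 k3
      exact ⟨by exact_mod_cast k1, by exact_mod_cast k2, by exact_mod_cast k3⟩
    · rintro ⟨a, b, c, d, hab, hbc, hcd, k1, k2, k3⟩
      have := (h a b c d hab hbc hcd d.2).2
      rw [V11294.TG.vf_val, V11294.TG.vf_val, V11294.TG.vf_val, V11294.TG.vf_val] at this
      apply this
      rw [Fin.lt_def] at k1 k2 k3
      exact ⟨by exact_mod_cast k1, by exact_mod_cast k2, by exact_mod_cast k3⟩

/-- the explicit gamma coefficients of the separable permutations -/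
theorem isGammaS_sg (m : ℕ) : IsGammaS (m + 1) (V11294.TG.sg m) := by
  classical
  unfold IsGammaS
  apply Polynomial.funext
  intro t
  have h1 : V11294.TG.Fs t 1 (m + 1) = ∑ k ∈ range (m + 1), V11294.TG.sg m k *
      (t ^ k * (1 + t) ^ (m - 2 * k)) := by
    have h2 := V11294.TG.sep_coeff t (PowerSeries.mk (V11294.TG.Fs t 1))
      (by rw [← PowerSeries.coeff_zero_eq_constantCoeff_apply, PowerSeries.coeff_mk]
          simp [V11294.TG.Fs])
      (V11294.TG.fun_eq t) m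
    rwa [PowerSeries.coeff_mk] at h2
  have h3 : ∑ k ∈ range (m + 1), V11294.TG.sg m k * (t ^ k * (1 + t) ^ (m - 2 * k)) =
      ∑ k ∈ range (m / 2 + 1), V11294.TG.sg m k * (t ^ k * (1 + t) ^ (m - 2 * k)) := by
    symm
    apply Finset.sum_subset
    · intro k hk
      rw [Finset.mem_range] at hk ⊢
      omega
    · intro k _ hk
      rw [Finset.mem_range] at hk
      rw [V11294.TG.sg_big m k (by omega), zero_mul]
  rw [h3] at h1
  rw [Polynomial.eval_finsetSum, Polynomial.eval_finsetSum]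
  simp only [Nat.add_sub_cancel, Polynomial.eval_mul, Polynomial.eval_C, Polynomial.eval_pow,
    Polynomial.eval_X, Polynomial.eval_add, Polynomial.eval_one]
  rw [← h1, Finset.sum_filter]
  unfold V11294.TG.Fs
  rw [if_neg (by omega)]
  apply Finset.sum_congr rfl
  intro σ _
  unfold V11294.TG.wt
  rw [one_pow, mul_one]
  by_cases h : Separable σ
  · rw [if_pos h, if_pos ((separable_iff σ).mp h)]
    rfl
  · rw [if_neg h, if_neg (fun h' => h ((separable_iff σ).mpr h'))]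

/-- For every `n ≥ 1` the two families of gamma coefficients exist, and
`γ_{n,k,n-1-2k} ≥ γ^S_{n,k}` for all `0 ≤ k ≤ ⌊(n-1)/2⌋`. -/
theorem result (n : ℕ) (hn : 1 ≤ n) :
    (∃ γ : ℕ → ℕ → ℚ, IsGamma n γ) ∧ (∃ γS : ℕ → ℚ, IsGammaS n γS) ∧
    ∀ (γ : ℕ → ℕ → ℚ) (γS : ℕ → ℚ), IsGamma n γ → IsGammaS n γS →
      ∀ k : ℕ, k ≤ (n - 1) / 2 → γS k ≤ γ k (n - 1 - 2 * k) := by
  obtain ⟨m, rfl⟩ : ∃ m, n = m + 1 := ⟨n - 1, by omega⟩
  obtain ⟨g, _, g1, g2⟩ := V11294.TG.exists_gamma m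
  refine ⟨⟨g, (isGamma_iff _ _).mpr g2⟩, ⟨_, isGammaS_sg m⟩, ?_⟩
  intro γ γS hγ hS k hk
  rw [isGamma_iff] at hγ
  simp only [Nat.add_sub_cancel] at hk ⊢
  have h1 : γS k = V11294.TG.sg m k := by
    have h2 := hS.symm.trans (isGammaS_sg m)
    have := V11294.TG.uni_poly m (m / 2 + 1) (fun k => γS k - V11294.TG.sg m k) (by
      simp only [Nat.add_sub_cancel] at h2
      rw [← sub_eq_zero, ← Finset.sum_sub_distrib] at h2
      rw [← h2]
      apply Finset.sum_congr rfl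
      intro k _
      rw [map_sub]
      ring) k (by omega)
    linarith
  have h3 : γ k (m - 2 * k) = g k (m - 2 * k) := by
    apply V11294.TG.slice_unique m γ g _ k hk
    intro x
    have h4 := hγ.symm.trans g2
    have h5 := congrArg (MvPolynomial.aeval ![x, -x]) h4
    rw [gexp_map, gexp_map] at h5
    simpa using h5
  rw [h1, h3]
  exact g1 k (by omega)

end Pool.Agent.Results.MP_f98a08_co.GammaInequality
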